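import Pool.Agent.S09889
import Pool.Agent.Results.MP_ba6833_co.RainbowThreshold

/-!
# MP_ea05a2_co, Q1: the extremal graphs for edge colourings without rainbow `K_4`

For every number `s ≥ 2` of colours and all sufficiently large `n` the unique `n`-vertex graph with
the largest number of `s`-edge colourings without a rainbow `K_4` is the complete graph `K_n` if
`s ≤ 11`, and the Turán graph `T_3(n)` if `s ≥ 12`.

The file combines two theorems of the pool: the dichotomy of MP_86b484_co (for some threshold `r*`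
the unique extremal graph is `K_n` below it and the Turán graph from it on) and the value of the
threshold for Turán graphs of MP_ba6833_co.
-/

set_option autoImplicit false

namespace Pool.Agent.Results.MP_ea05a2_co.ExtremalGraphs

/-- The edge colouring `c` of `G` has no rainbow `K_4`: every four vertices that span a `K_4` in `G`
span two different edges of the same colour. -/
def RainbowFree {V : Type} {s : ℕ} (G : SimpleGraph V) (c : G.edgeSet → Fin s) : Prop :=
  ∀ S : Finset V, G.IsNClique 4 S →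
    ∃ e f : G.edgeSet, e ≠ f ∧ (∀ v ∈ (e : Sym2 V), v ∈ S) ∧ (∀ v ∈ (f : Sym2 V), v ∈ S) ∧
      c e = c f

/-- `F(G)`: the number of `s`-edge colourings of `G` without a rainbow `K_4`. -/
noncomputable def F {V : Type} (s : ℕ) (G : SimpleGraph V) : ℕ :=
  Nat.card {c : G.edgeSet → Fin s // RainbowFree G c}

/-- `G` is extremal: no graph on the same number of vertices has more such colourings. -/
def Extremal {n : ℕ} (s : ℕ) (G : SimpleGraph (Fin n)) : Prop :=
  ∀ H : SimpleGraph (Fin n), F s H ≤ F s G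

open Pool.Agent.Results.MP_ba6833_co.RainbowThreshold in
lemma F_eq {V : Type} (s : ℕ) (G : SimpleGraph V) : F s G = numColourings s 4 G := by
  rw [num_eq]
  rfl

/-- The edges inside a `4`-clique. -/
lemma ncard_edges {V : Type} (G : SimpleGraph V) (S : Finset V) (hS : G.IsNClique 4 S) :
    ({e : G.edgeSet | ∀ v ∈ (e : Sym2 V), v ∈ S} : Set G.edgeSet).ncard = 6 := by
  classical
  have h1 : ((Subtype.val : G.edgeSet → Sym2 V) ''
      {e : G.edgeSet | ∀ v ∈ (e : Sym2 V), v ∈ S}).ncard = 6 := by
    have h2 : ((Subtype.val : G.edgeSet → Sym2 V) ''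
      {e : G.edgeSet | ∀ v ∈ (e : Sym2 V), v ∈ S}) =
      ((S.offDiag.image Sym2.mk.uncurry : Finset (Sym2 V)) : Set (Sym2 V)) := by
      ext e
      induction e using Sym2.ind with
      | _ x y =>
        simp only [Set.mem_image, Subtype.exists, Finset.coe_image, Finset.mem_coe, Function.uncurry,
          Finset.mem_offDiag, Prod.exists]
        constructor
        · rintro ⟨a, ha, hv, hxy⟩
          subst hxy
          rw [SimpleGraph.mem_edgeSet] at ha
          have hx := hv x (by simp)
          have hy := hv y (by simp)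
          exact ⟨x, y, ⟨hx, hy, ha.ne⟩, rfl⟩
        · rintro ⟨a, b, ⟨ha, hb, hab⟩, h⟩
          have hadj : G.Adj a b := hS.isClique ha hb hab
          refine ⟨s(a, b), hadj, ?_, h⟩
          intro v hv
          have hv' : v ∈ s(a, b) := hv
          rw [Sym2.mem_iff] at hv'
          rcases hv' with rfl | rfl
          · exact ha
          · exact hb
    rw [h2, Set.ncard_coe_finset, Sym2.card_image_offDiag, hS.card_eq]
    decide
  rwa [Subtype.val_injective.injOn.ncard_image] at h1

lemma rainbowFree_iff {V : Type} {s : ℕ} (G : SimpleGraph V) (c : G.edgeSet → Fin s) :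
    (∀ S : Finset V, G.IsNClique 4 S →
      Set.ncard {i : Fin s | ∃ e : G.edgeSet, (∀ v ∈ (e : Sym2 V), v ∈ S) ∧ c e = i} < 6) ↔
    RainbowFree G c := by
  classical
  apply forall_congr'
  intro S
  apply forall_congr'
  intro hS
  have h6 := ncard_edges G S hS
  set E : Set G.edgeSet := {e : G.edgeSet | ∀ v ∈ (e : Sym2 V), v ∈ S} with hE
  have hfin : E.Finite := Set.finite_of_ncard_ne_zero (by rw [h6]; norm_num)
  have himg : {i : Fin s | ∃ e : G.edgeSet, (∀ v ∈ (e : Sym2 V), v ∈ S) ∧ c e = i} = c '' E := rfl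
  rw [himg]
  constructor
  · intro h
    by_contra hcon
    push Not at hcon
    have hinj : Set.InjOn c E := by
      intro e he f hf hef
      by_contra hne
      exact hcon e f hne he hf hef
    rw [hinj.ncard_image, h6] at h
    exact lt_irrefl _ h
  · rintro ⟨e, f, hne, he, hf, hef⟩
    have hle : (c '' E).ncard ≤ E.ncard := Set.ncard_image_le hfin
    rcases lt_or_eq_of_le hle with h | h
    · rwa [h6] at h
    · exact absurd ((Set.ncard_image_iff hfin).1 h he hf hef) hne

lemma F_eq' {V : Type} (s : ℕ) (G : SimpleGraph V) :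
    Nat.card {c : G.edgeSet → Fin s // ∀ S : Finset V, G.IsNClique 4 S →
      Set.ncard {i : Fin s | ∃ e : G.edgeSet, (∀ v ∈ (e : Sym2 V), v ∈ S) ∧ c e = i} < 6} =
    F s G := by
  apply Nat.card_congr
  exact Equiv.subtypeEquivRight (rainbowFree_iff G)

lemma iso_top {n : ℕ} (G : SimpleGraph (Fin n)) :
    Nonempty (G ≃g (⊤ : SimpleGraph (Fin n))) ↔ G = ⊤ := by
  constructor
  · rintro ⟨f⟩
    ext x y
    rw [← f.map_rel_iff, SimpleGraph.top_adj, SimpleGraph.top_adj]
    exact f.injective.ne_iff
  · rintro rfl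
    exact ⟨RelIso.refl _⟩

lemma turan_ne_top {n : ℕ} (hn : 4 ≤ n) : SimpleGraph.turanGraph n 3 ≠ ⊤ := by
  intro h
  have h1 : (SimpleGraph.turanGraph n 3).Adj ⟨0, by omega⟩ ⟨3, by omega⟩ := by
    rw [h, SimpleGraph.top_adj]
    simp
  simp [SimpleGraph.turanGraph] at h1

open Pool.Agent.Results.MP_ba6833_co.RainbowThreshold in
lemma turanUnique_iff (s : ℕ) (hs : 2 ≤ s) : TuranUnique s 4 ↔ 12 ≤ s := by
  have h := (result 4 (by norm_num)).2 s hs
  rw [h, threshold_le_iff 4 s (by norm_num)]
  have h6 : (4 : ℕ).choose 2 = 6 := by decide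
  rw [h6]
  norm_num
  constructor
  · rintro ⟨h1, _⟩
    by_contra hlt
    push Not at hlt
    have : s ≤ 11 := by omega
    have := Nat.pow_le_pow_left this 2
    omega
  · intro h12
    have h1 := Nat.pow_le_pow_left h12 2
    have h2 := Nat.pow_le_pow_left h12 3
    constructor <;> omega

/-- **Result** (complete answer to Q1 of MP_ea05a2_co). For every number `s ≥ 2` of colours and all
sufficiently large `n`, an `n`-vertex graph is extremal for edge colourings without a rainbow `K_4`
if and only if it is the Turán graph `T_3(n)` (in case `s ≥ 12`) or the complete graph (in case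
`s ≤ 11`). -/
theorem result : ∀ s : ℕ, 2 ≤ s → ∃ n0 : ℕ, ∀ n : ℕ, n0 ≤ n → ∀ G : SimpleGraph (Fin n),
    (Extremal s G ↔
      (12 ≤ s ∧ Nonempty (G ≃g SimpleGraph.turanGraph n 3)) ∨ (s ≤ 11 ∧ G = ⊤)) := by
  obtain ⟨rstar, hr⟩ := Pool.Agent.S09889.result 4 6 (by norm_num) (by norm_num) (by decide)
  -- rewrite the dichotomy
  have hd : ∀ s : ℕ, 2 ≤ s → ∃ n0 : ℕ, ∀ n : ℕ, n0 ≤ n → ∀ G : SimpleGraph (Fin n),
      (Extremal s G ↔ ((s < rstar ∧ Nonempty (G ≃g (⊤ : SimpleGraph (Fin n)))) ∨
        (rstar ≤ s ∧ Nonempty (G ≃g SimpleGraph.turanGraph n 3)))) := by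
    intro s hs
    obtain ⟨n0, h0⟩ := hr s hs
    refine ⟨n0, fun n hn G => ?_⟩
    have h1 := h0 n hn G
    simp only [F_eq'] at h1
    exact h1
  have hext : ∀ (n s : ℕ) (G : SimpleGraph (Fin n)), Extremal s G ↔
      Pool.Agent.Results.MP_ba6833_co.RainbowThreshold.Extremal s 4 G := by
    intro n s G
    unfold Extremal Pool.Agent.Results.MP_ba6833_co.RainbowThreshold.Extremal
    simp only [F_eq]
  -- the value of the threshold
  have key : ∀ s : ℕ, 2 ≤ s → (rstar ≤ s ↔ 12 ≤ s) := by
    intro s hs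
    obtain ⟨n0, h0⟩ := hd s hs
    constructor
    · intro hle
      rw [← turanUnique_iff s hs]
      refine ⟨n0, fun n hn G => ?_⟩
      rw [← hext, h0 n hn G]
      constructor
      · rintro (⟨h1, _⟩ | ⟨_, h2⟩)
        · omega
        · exact h2
      · intro h2
        exact Or.inr ⟨hle, h2⟩
    · intro h12
      by_contra hlt
      push Not at hlt
      obtain ⟨n1, h1⟩ := (turanUnique_iff s hs).2 h12
      have hn : n0 ≤ n0 + n1 + 4 := by omega
      have hT := (h1 (n0 + n1 + 4) (by omega) (SimpleGraph.turanGraph (n0 + n1 + 4) 3)).2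
        ⟨RelIso.refl _⟩
      rw [← hext, h0 _ hn] at hT
      rcases hT with ⟨_, h2⟩ | ⟨h2, _⟩
      · exact turan_ne_top (by omega) ((iso_top _).1 h2)
      · omega
  intro s hs
  obtain ⟨n0, h0⟩ := hd s hs
  refine ⟨n0, fun n hn G => ?_⟩
  rw [h0 n hn G, iso_top]
  have hk := key s hs
  constructor
  · rintro (⟨h1, h2⟩ | ⟨h1, h2⟩)
    · exact Or.inr ⟨by omega, h2⟩
    · exact Or.inl ⟨hk.1 h1, h2⟩
  · rintro (⟨h1, h2⟩ | ⟨h1, h2⟩)
    · exact Or.inr ⟨hk.2 h1, h2⟩
    · exact Or.inl ⟨by omega, h2⟩

end Pool.Agent.Results.MP_ea05a2_co.ExtremalGraphs
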